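import Mathlib
import Pool.Agent.Lib.helper22.Stat

set_option autoImplicit false

namespace Pool.Agent.Results.MP_367a9a_gt.Undetermined

open Set

/-- `𝒰` is a k-cover: open sets, every compact set lies inside a member -/
def KCover {X : Type} [TopologicalSpace X] (𝒰 : Set (Set X)) : Prop :=
  (∀ U ∈ 𝒰, IsOpen U) ∧ ∀ K : Set X, IsCompact K → ∃ U ∈ 𝒰, K ⊆ U

/-- the moves of a player in rounds `0, …, n - 1`, the latest first -/
def hist {α : Type} (U : ℕ → α) : ℕ → List α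
  | 0 => []
  | n + 1 => U n :: hist U n

/-- P1 has a winning strategy in `G₁` -/
def P1WinsOne (X : Type) [TopologicalSpace X] : Prop :=
  ∃ σ : List (Set X) → Set (Set X), (∀ l, KCover (σ l)) ∧
    ∀ U : ℕ → Set X, (∀ n, U n ∈ σ (hist U n)) → ¬ KCover (range U)

/-- P1 has a winning strategy in `G_fin` -/
def P1WinsFin (X : Type) [TopologicalSpace X] : Prop :=
  ∃ σ : List (Set (Set X)) → Set (Set X), (∀ l, KCover (σ l)) ∧
    ∀ 𝓕 : ℕ → Set (Set X), (∀ n, (𝓕 n).Finite ∧ 𝓕 n ⊆ σ (hist 𝓕 n)) → ¬ KCover (⋃ n, 𝓕 n)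

/-- P2 has a winning strategy in `G₁`; `τ l 𝒰` answers `𝒰` after the earlier moves `l` of P1 -/
def P2WinsOne (X : Type) [TopologicalSpace X] : Prop :=
  ∃ τ : List (Set (Set X)) → Set (Set X) → Set X,
    (∀ l 𝒰, (∀ 𝒱 ∈ l, KCover 𝒱) → KCover 𝒰 → τ l 𝒰 ∈ 𝒰) ∧
    ∀ 𝒰 : ℕ → Set (Set X), (∀ n, KCover (𝒰 n)) → KCover (range fun n => τ (hist 𝒰 n) (𝒰 n))

/-- P2 has a winning strategy in `G_fin` -/
def P2WinsFin (X : Type) [TopologicalSpace X] : Prop :=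
  ∃ τ : List (Set (Set X)) → Set (Set X) → Set (Set X),
    (∀ l 𝒰, (∀ 𝒱 ∈ l, KCover 𝒱) → KCover 𝒰 → (τ l 𝒰).Finite ∧ τ l 𝒰 ⊆ 𝒰) ∧
    ∀ 𝒰 : ℕ → Set (Set X), (∀ n, KCover (𝒰 n)) → KCover (⋃ n, τ (hist 𝒰 n) (𝒰 n))

open Pool.Agent.Lib.helper22.Ray Pool.Agent.Lib.helper22.Stat

lemma mem_hist {α : Type} (U : ℕ → α) {n : ℕ} {x : α} (h : x ∈ hist U n) : ∃ i, U i = x := by
  induction n with
  | zero => simp [hist] at h
  | succ n ih =>
    rcases List.mem_cons.1 h with rfl | h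
    · exact ⟨n, rfl⟩
    · exact ih h

lemma list_bdd {α : Type} {δ : W} (hδ : w0 < δ) (P : W → α → Prop)
    (hP : ∀ a b x, a ≤ b → P a x → P b x) (l : List α) (h : ∀ x ∈ l, ∃ a < δ, P a x) :
    ∃ a < δ, ∀ x ∈ l, P a x := by
  induction l with
  | nil => exact ⟨w0, hδ, by simp⟩
  | cons x l ih =>
    obtain ⟨a, h1, h2⟩ := ih fun y hy => h y (List.mem_cons_of_mem _ hy)
    obtain ⟨b, h3, h4⟩ := h x List.mem_cons_self
    refine ⟨max a b, max_lt h1 h3, fun y hy => ?_⟩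
    rcases List.mem_cons.1 hy with rfl | hy
    · exact hP _ _ _ (le_max_right _ _) h4
    · exact hP _ _ _ (le_max_left _ _) (h2 y hy)

lemma notP1 : ¬ P1WinsOne X := by
  rintro ⟨σ, h1, h2⟩
  have : ∀ (l : List (Set X)) (F : Set X), ∃ (U : Set X) (α : W), F.Finite →
      U ∈ σ l ∧ ∀ x ∈ F, B x α ⊆ U := by
    intro l F
    by_cases hF : F.Finite
    · obtain ⟨U, hU, hFU⟩ := (h1 l).2 F hF.isCompact
      have : ∀ x ∈ F, ∃ α, B x α ⊆ U := fun x hx => (h1 l).1 U hU x (hFU hx)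
      have _ : Nonempty W := ⟨w0⟩
      choose! g hg using this
      obtain ⟨α, hα⟩ := W_bdd (hF.countable.image g)
      exact ⟨U, α, fun _ => ⟨hU, fun x hx => (B_mono x (hα _ ⟨x, hx, rfl⟩).le).trans (hg x hx)⟩⟩
    · exact ⟨∅, w0, fun h => absurd h hF⟩
  choose U α hU using this
  let pos : List (Set X) → List (Set X) := fun l => l.foldr (fun F p => U p F :: p) []
  have : ∀ a : W, ∃ b, ∀ (l : List (Set X)) (F : Set X),
      (∀ G ∈ F :: l, G.Finite ∧ G ⊆ XX a) → α (pos l) F < b := by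
    intro a
    obtain ⟨b, hb⟩ := W_bdd ((list_countable (countable_ofPred_finite_subset (XX_countable a))).image
      fun l => α (pos l.tail) (l.headD ∅))
    exact ⟨b, fun l F h => hb _ ⟨F :: l, h, rfl⟩⟩
  choose f hf using this
  obtain ⟨δ, hδ, hcl⟩ := (hS f).2
  have hY : {F : Set X | F.Finite ∧ ∃ a < δ, F ⊆ XX a}.Countable :=
    (countable_ofPred_finite_subset (XX_countable δ)).mono fun F ⟨h3, a, h4, h5⟩ =>
      And.intro h3 (h5.trans (XX_mono h4.le))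
  obtain ⟨F, hF⟩ := hY.exists_eq_range ⟨∅, finite_empty, w0, hcl.1.1, empty_subset _⟩
  have hF' : ∀ n, (F n).Finite ∧ ∃ a < δ, F n ⊆ XX a := fun n =>
    (hF.symm ▸ mem_range_self n : F n ∈ {F : Set X | F.Finite ∧ ∃ a < δ, F ⊆ XX a})
  have e : ∀ n, hist (fun n => U (pos (hist F n)) (F n)) n = pos (hist F n) := by
    intro n
    induction n with
    | zero => rfl
    | succ n ih => simp only [hist, ih]; rfl
  refine h2 (fun n => U (pos (hist F n)) (F n)) (fun n => e n ▸ (hU _ _ (hF' n).1).1) ⟨?_, ?_⟩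
  · rintro _ ⟨n, rfl⟩
    exact (h1 _).1 _ (hU _ _ (hF' n).1).1
  · intro K hK
    choose ρ hρ1 hρ2 using restrict hcl.1 hδ
    have hK' := compact_finite hK
    obtain ⟨a, ha, ha'⟩ := list_bdd hcl.1.1 (fun a x => ρ x ∈ XX a)
      (fun a b x hab h => XX_mono hab h) hK'.toFinset.toList fun x _ => hρ1 x
    obtain ⟨n, hn⟩ : ρ '' K ∈ range F := by
      rw [← hF]
      refine ⟨hK'.image _, a, ha, ?_⟩
      rintro _ ⟨x, hx, rfl⟩
      exact ha' x (by simpa using hx)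
    obtain ⟨b, hb, hb'⟩ := list_bdd hcl.1.1 (fun a (G : Set X) => G.Finite ∧ G ⊆ XX a)
      (fun a b x hab h => ⟨h.1, h.2.trans (XX_mono hab)⟩) (hist F (n + 1)) (by
        intro G hG
        obtain ⟨i, rfl⟩ := mem_hist F hG
        obtain ⟨h3, a, h4, h5⟩ := hF' i
        exact ⟨a, h4, h3, h5⟩)
    refine ⟨_, ⟨n, rfl⟩, fun x hx => (hU _ _ (hF' n).1).2 (ρ x) (hn ▸ ⟨x, hx, rfl⟩) ?_⟩
    exact B_mono _ ((hf b _ _ hb').trans (hcl.2 b hb)).le (hρ2 x)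

def cov (g : X → W) : Set (Set X) := {U | ∃ F : Set X, F.Finite ∧ U = ⋃ x ∈ F, B x (g x)}

lemma cov_k (g : X → W) : KCover (cov g) := by
  refine ⟨?_, fun K hK => ⟨_, ⟨K, compact_finite hK, rfl⟩, fun x hx => mem_biUnion hx (B_self _ _)⟩⟩
  rintro _ ⟨F, -, rfl⟩
  exact isOpen_biUnion fun x _ => B_open _ _

lemma cov_fin {g : X → W} {𝓕 : Set (Set X)} (h1 : 𝓕.Finite) (h2 : 𝓕 ⊆ cov g) :
    ∃ E : Set X, E.Finite ∧ ⋃₀ 𝓕 = ⋃ x ∈ E, B x (g x) := by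
  have : ∀ U ∈ 𝓕, ∃ F : Set X, F.Finite ∧ U = ⋃ x ∈ F, B x (g x) := fun U hU => h2 hU
  choose! F hF hF' using this
  refine ⟨⋃ U ∈ 𝓕, F U, h1.biUnion hF, Subset.antisymm ?_ ?_⟩
  · rintro y ⟨U, hU, hy⟩
    rw [hF' U hU] at hy
    obtain ⟨x, hx, hy⟩ := mem_iUnion₂.1 hy
    exact mem_biUnion (mem_biUnion hU hx) hy
  · intro y hy
    obtain ⟨x, hx, hy⟩ := mem_iUnion₂.1 hy
    obtain ⟨U, hU, hx⟩ := mem_iUnion₂.1 hx
    exact ⟨U, hU, by rw [hF' U hU]; exact mem_biUnion hx hy⟩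

lemma notP2 : ¬ P2WinsFin X := by
  rintro ⟨τ, h1, h2⟩
  have step : ∀ p : List (Set (Set X)), ∃ (K : Set X) (G : W → ℕ → X → W),
      (∀ 𝒱 ∈ p, KCover 𝒱) → K.Finite ∧ ∀ α x, (∀ k ∈ K, x ∉ B k α) →
        ∃ n, x ∉ ⋃₀ τ p (cov (G α n)) := by
    intro p
    by_cases hp : ∀ 𝒱 ∈ p, KCover 𝒱
    · have hV : ∀ g, ∃ E : Set X, E.Finite ∧ ⋃₀ τ p (cov g) = ⋃ x ∈ E, B x (g x) := fun g =>
        cov_fin (h1 p _ hp (cov_k g)).1 (h1 p _ hp (cov_k g)).2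
      have : ∀ α, ∃ G : ℕ → X → W, ∀ x, (∀ k ∈ ⋂ g, ⋃₀ τ p (cov g), x ∉ B k α) →
          ∃ n, x ∉ ⋃₀ τ p (cov (G n)) := by
        intro α
        have : ∀ z : X, ∃ (g : X → W) (β : W), ∀ x ∈ B z β,
            (∀ k ∈ ⋂ g, ⋃₀ τ p (cov g), x ∉ B k α) → x ∉ ⋃₀ τ p (cov g) := by
          intro z
          by_cases hz : z ∈ ⋂ g, ⋃₀ τ p (cov g)
          · exact ⟨fun _ => α, α, fun x hx h => absurd hx (h z hz)⟩
          · obtain ⟨g, hg⟩ : ∃ g, z ∉ ⋃₀ τ p (cov g) := by simpa using hz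
            obtain ⟨E, hE, hE'⟩ := hV g
            have hcl : IsClosed (⋃₀ τ p (cov g)) := by
              rw [hE']; exact hE.isClosed_biUnion fun x _ => B_closed _ _
            obtain ⟨β, hβ⟩ := hcl.isOpen_compl z hg
            exact ⟨g, β, fun x hx _ => hβ hx⟩
        choose g β hg using this
        obtain ⟨Z, hZ, hZ'⟩ := lindelof β
        have : Nonempty X := ⟨⟨∅, Or.inl finite_empty⟩⟩
        obtain ⟨e, he⟩ := countable_iff_exists_subset_range.1 hZ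
        refine ⟨fun n => g (e n), fun x hx => ?_⟩
        obtain ⟨z, hz, hxz⟩ := hZ' x
        obtain ⟨n, rfl⟩ := he hz
        exact ⟨n, hg _ x hxz hx⟩
      choose G hG using this
      refine ⟨⋂ g, ⋃₀ τ p (cov g), G, fun _ => ⟨finite_of_cover fun g => ?_, hG⟩⟩
      obtain ⟨E, hE, hE'⟩ := hV g
      exact ⟨E, hE, hE' ▸ iInter_subset _ g⟩
    · exact ⟨∅, fun _ _ _ => w0, fun h => absurd h hp⟩
  choose K G hKG using step
  let pos : List (W × ℕ) → List (Set (Set X)) :=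
    fun s => s.foldr (fun q p => cov (G p q.1 q.2) :: p) []
  have hpos : ∀ s, ∀ 𝒱 ∈ pos s, KCover 𝒱 := by
    intro s
    induction s with
    | nil => simp [pos]
    | cons q s ih =>
      intro 𝒱 h
      rcases List.mem_cons.1 h with rfl | h
      · exact cov_k _
      · exact ih _ h
  choose bd hbd using X_bdd
  have : ∀ a : W, ∃ b, ∀ s : List (W × ℕ), (∀ q ∈ s, q.1 ≤ a) → ∀ k ∈ K (pos s), bd k < b := by
    intro a
    obtain ⟨b, hb⟩ := W_bdd (((list_countable ((W_Iic a).prod (countable_univ (α := ℕ)))).biUnion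
      fun s _ => (hKG _ (hpos s)).1.countable).image bd)
    exact ⟨b, fun s hs k hk => hb _ ⟨k, mem_biUnion
      (show s ∈ {l : List (W × ℕ) | ∀ x ∈ l, x ∈ Iic a ×ˢ univ} from
        fun q hq => ⟨hs q hq, trivial⟩) hk, rfl⟩⟩
  choose f hf using this
  obtain ⟨δ, hδ, hcl⟩ := (hS f).1
  let t : X := ⟨c δ, Or.inr ⟨δ, hδ, hcl.1, rfl⟩⟩
  have : ∀ s : List (W × ℕ), ∃ q : W × ℕ, (∀ q ∈ s, q.1 < δ) →
      q.1 < δ ∧ t ∉ ⋃₀ τ (pos s) (cov (G (pos s) q.1 q.2)) := by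
    intro s
    by_cases hs : ∀ q ∈ s, q.1 < δ
    · obtain ⟨a, ha, ha'⟩ := list_bdd hcl.1.1 (fun a (q : W × ℕ) => q.1 ≤ a)
        (fun a b x hab h => h.trans hab) s fun q hq => ⟨q.1, hs q hq, le_rfl⟩
      obtain ⟨y, hy, hy'⟩ := (hc δ).2.2 _ (hcl.2 a ha)
      obtain ⟨α, hα, hα'⟩ := hcl.1.2 y ((hc δ).1 hy)
      obtain ⟨n, hn⟩ := (hKG _ (hpos s)).2 α t fun k hk h =>
        absurd (hbd k ((h y hα').1 hy)) (not_le.2 ((hf a s ha' k hk).trans_le hy'))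
      exact ⟨(α, n), fun _ => ⟨hα, hn⟩⟩
    · exact ⟨(w0, 0), fun h => absurd h hs⟩
  choose nx hnx using this
  let s : ℕ → List (W × ℕ) := fun m => Nat.rec [] (fun _ l => nx l :: l) m
  have hs : ∀ m, ∀ q ∈ s m, q.1 < δ := by
    intro m
    induction m with
    | zero => simp [s]
    | succ m ih =>
      intro q hq
      rcases List.mem_cons.1 hq with rfl | hq
      · exact (hnx _ ih).1
      · exact ih q hq
  let 𝒰 : ℕ → Set (Set X) := fun m => cov (G (pos (s m)) (nx (s m)).1 (nx (s m)).2)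
  have e : ∀ m, hist 𝒰 m = pos (s m) := by
    intro m
    induction m with
    | zero => rfl
    | succ m ih => simp only [hist, ih]; rfl
  obtain ⟨U, hU, htU⟩ := (h2 𝒰 fun m => cov_k _).2 {t} isCompact_singleton
  obtain ⟨m, hm⟩ := mem_iUnion.1 hU
  rw [e] at hm
  exact (hnx _ (hs m)).2 ⟨U, hm, htU rfl⟩

theorem result : ∃ (X : Type) (_ : TopologicalSpace X), T3Space X ∧
    (¬ P1WinsOne X ∧ ¬ P2WinsOne X) ∧ (¬ P1WinsFin X ∧ ¬ P2WinsFin X) := by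
  refine ⟨X, inferInstance, {}, ⟨notP1, ?_⟩, ?_, notP2⟩
  · rintro ⟨τ, h1, h2⟩
    refine notP2 ⟨fun l 𝒰 => {τ l 𝒰}, fun l 𝒰 hl h =>
      ⟨finite_singleton _, singleton_subset_iff.2 (h1 l 𝒰 hl h)⟩, fun 𝒰 h => ?_⟩
    rw [iUnion_singleton_eq_range]
    exact h2 𝒰 h
  · rintro ⟨σ, h1, h2⟩
    refine notP1 ⟨fun l => σ (l.map fun U => {U}), fun l => h1 _, fun U hU => ?_⟩
    have e : ∀ n, hist (fun n => ({U n} : Set (Set X))) n = (hist U n).map fun U => {U} := by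
      intro n
      induction n with
      | zero => rfl
      | succ n ih => simp only [hist, ih, List.map_cons]
    rw [← iUnion_singleton_eq_range]
    exact h2 _ fun n => ⟨finite_singleton _, by rw [e]; exact singleton_subset_iff.2 (hU n)⟩

end Pool.Agent.Results.MP_367a9a_gt.Undetermined
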